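import Pool.Agent.R597.RD.Sect

/-!
# Isomorphisms of algebras
-/

set_option autoImplicit false

open CategoryTheory CategoryTheory.Limits AlgebraicGeometry MvPolynomial
open Pool.Agent.R904.CU

namespace Pool.Agent.R597.RD

section

variable {K : Type} [CommRing K]

/-- `B[τ]/(τ) = B` -/
noncomputable def zeroIso (K B τ : Type) [CommRing K] [CommRing B] [Algebra K B] :
    (MvPolynomial τ B ⧸ Ideal.span (Set.range (X : τ → MvPolynomial τ B))) ≃ₐ[K] B :=
  AlgEquiv.ofAlgHom
    (Ideal.Quotient.liftₐ _ ((aeval (fun _ => (0 : B)) : MvPolynomial τ B →ₐ[B] B).restrictScalars K)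
      (by
        intro a ha
        have h : Ideal.span (Set.range (X : τ → MvPolynomial τ B)) ≤
            RingHom.ker (aeval (fun _ => (0 : B)) : MvPolynomial τ B →ₐ[B] B) := by
          rw [Ideal.span_le]
          rintro _ ⟨k, rfl⟩
          change aeval (fun _ => (0 : B)) (X k : MvPolynomial τ B) = 0
          rw [aeval_X]
        exact h ha))
    ((Ideal.Quotient.mkₐ K _).comp (IsScalarTower.toAlgHom K B (MvPolynomial τ B)))
    (by
      apply AlgHom.ext
      intro x
      change aeval (fun _ => (0 : B)) (C x : MvPolynomial τ B) = x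
      rw [aeval_C]
      rfl)
    (by
      apply AlgHom.coe_ringHom_injective
      apply Ideal.Quotient.ringHom_ext
      apply MvPolynomial.ringHom_ext
      · intro x
        change Ideal.Quotient.mk _ (C (aeval (fun _ => (0 : B)) (C x : MvPolynomial τ B))) =
          Ideal.Quotient.mk _ (C x)
        rw [aeval_C]
        rfl
      · intro t
        change Ideal.Quotient.mk _ (C (aeval (fun _ => (0 : B)) (X t : MvPolynomial τ B))) =
          Ideal.Quotient.mk _ (X t)
        rw [aeval_X, C_0, map_zero]
        symm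
        rw [Ideal.Quotient.eq_zero_iff_mem]
        exact Ideal.subset_span ⟨t, rfl⟩)

variable {σ κ : Type}

/-- the coordinate ring of `V(g)` -/
abbrev Co (g : κ → MvPolynomial σ K) : Type := MvPolynomial σ K ⧸ Ideal.span (Set.range g)

theorem mk_g (g : κ → MvPolynomial σ K) (k : κ) :
    (Ideal.Quotient.mk (Ideal.span (Set.range g)) (g k)) = 0 :=
  Ideal.Quotient.eq_zero_iff_mem.2 (Ideal.subset_span ⟨k, rfl⟩)

/-- more variables, with the equations `X = 0` -/
noncomputable def addV (g : κ → MvPolynomial σ K) (ε : Type) : κ ⊕ ε → MvPolynomial (σ ⊕ ε) K :=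
  Sum.elim (fun k => rename Sum.inl (g k)) (fun z => X (Sum.inr z))

theorem totalDegree_addV (g : κ → MvPolynomial σ K) (ε : Type) (hg : ∀ k, (g k).totalDegree ≤ 2)
    (k : κ ⊕ ε) : (addV g ε k).totalDegree ≤ 2 := by
  rcases k with k | z
  · exact (totalDegree_rename_le _ _).trans (hg k)
  · exact ((totalDegree_monomial_le _ _).trans (by simp)).trans one_le_two

theorem aeval_mk_X (g : κ → MvPolynomial σ K) (p : MvPolynomial σ K) :
    aeval (fun a => Ideal.Quotient.mk (Ideal.span (Set.range g)) (X a)) p =
      Ideal.Quotient.mk (Ideal.span (Set.range g)) p := by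
  have h1 : (aeval (fun a => Ideal.Quotient.mk (Ideal.span (Set.range g)) (X a)) :
      MvPolynomial σ K →ₐ[K] Co g) = Ideal.Quotient.mkₐ K _ := by
    apply MvPolynomial.algHom_ext
    intro a
    rw [aeval_X]
    rfl
  rw [h1]
  rfl

/-- one direction -/
noncomputable def addF (g : κ → MvPolynomial σ K) (ε : Type) : Co (addV g ε) →ₐ[K] Co g :=
  Ideal.Quotient.liftₐ _
    (aeval (Sum.elim (fun a => Ideal.Quotient.mk (Ideal.span (Set.range g)) (X a)) fun _ => 0))
    (by
      intro a ha
      have h : Ideal.span (Set.range (addV g ε)) ≤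
          RingHom.ker (aeval (Sum.elim
            (fun a => Ideal.Quotient.mk (Ideal.span (Set.range g)) (X a)) fun _ => 0) :
            MvPolynomial (σ ⊕ ε) K →ₐ[K] Co g) := by
        rw [Ideal.span_le]
        rintro _ ⟨k | z, rfl⟩
        · change aeval _ (rename Sum.inl (g k)) = (0 : Co g)
          rw [aeval_rename]
          refine Eq.trans ?_ (mk_g g k)
          exact aeval_mk_X g (g k)
        · change aeval _ (X (Sum.inr z) : MvPolynomial (σ ⊕ ε) K) = (0 : Co g)
          rw [aeval_X]
          rfl
      exact h ha)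

/-- the other direction -/
noncomputable def addG (g : κ → MvPolynomial σ K) (ε : Type) : Co g →ₐ[K] Co (addV g ε) :=
  Ideal.Quotient.liftₐ _ ((Ideal.Quotient.mkₐ K _).comp (rename Sum.inl))
    (by
      intro a ha
      have h : Ideal.span (Set.range g) ≤
          RingHom.ker ((Ideal.Quotient.mkₐ K (Ideal.span (Set.range (addV g ε)))).comp
            (rename Sum.inl)) := by
        rw [Ideal.span_le]
        rintro _ ⟨k, rfl⟩
        exact mk_g (addV g ε) (Sum.inl k)
      exact h ha)

theorem addF_X (g : κ → MvPolynomial σ K) (ε : Type) (a : σ ⊕ ε) :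
    addF g ε (Ideal.Quotient.mk _ (X a)) =
      Sum.elim (fun a => Ideal.Quotient.mk (Ideal.span (Set.range g)) (X a)) (fun _ => 0) a := by
  change aeval _ (X a : MvPolynomial (σ ⊕ ε) K) = _
  rw [aeval_X]

theorem addG_X (g : κ → MvPolynomial σ K) (ε : Type) (a : σ) :
    addG g ε (Ideal.Quotient.mk _ (X a)) = Ideal.Quotient.mk _ (X (Sum.inl a)) := by
  change Ideal.Quotient.mk _ (rename Sum.inl (X a)) = _
  rw [rename_X]

/-- the scheme `V(g)` does not change -/
noncomputable def addIso (g : κ → MvPolynomial σ K) (ε : Type) : Co (addV g ε) ≃ₐ[K] Co g :=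
  AlgEquiv.ofAlgHom (addF g ε) (addG g ε)
    (by
      apply Ideal.Quotient.algHom_ext
      apply MvPolynomial.algHom_ext
      intro a
      change addF g ε (addG g ε (Ideal.Quotient.mk _ (X a))) = Ideal.Quotient.mk _ (X a)
      rw [addG_X, addF_X]
      rfl)
    (by
      apply Ideal.Quotient.algHom_ext
      apply MvPolynomial.algHom_ext
      rintro (a | z)
      · change addG g ε (addF g ε (Ideal.Quotient.mk _ (X (Sum.inl a)))) =
          Ideal.Quotient.mk _ (X (Sum.inl a))
        rw [addF_X]
        exact addG_X g ε a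
      · change addG g ε (addF g ε (Ideal.Quotient.mk _ (X (Sum.inr z)))) =
          Ideal.Quotient.mk _ (X (Sum.inr z))
        rw [addF_X]
        change addG g ε 0 = _
        rw [map_zero]
        exact (mk_g (addV g ε) (Sum.inr z)).symm)

/-- two more variables `u, v` with the equation `uv = 1` -/
noncomputable def gmV (g : κ → MvPolynomial σ K) : κ ⊕ Unit → MvPolynomial (σ ⊕ Bool) K :=
  Sum.elim (fun k => rename Sum.inl (g k)) (fun _ => X (Sum.inr false) * X (Sum.inr true) - 1)

theorem totalDegree_gmV (g : κ → MvPolynomial σ K) (hg : ∀ k, (g k).totalDegree ≤ 2)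
    (k : κ ⊕ Unit) : (gmV g k).totalDegree ≤ 2 := by
  have hX : ∀ m : Bool, (X (Sum.inr m) : MvPolynomial (σ ⊕ Bool) K).totalDegree ≤ 1 := by
    intro m
    exact (totalDegree_monomial_le _ _).trans (by simp)
  rcases k with k | z
  · exact (totalDegree_rename_le _ _).trans (hg k)
  · change (X (Sum.inr false) * X (Sum.inr true) - 1 : MvPolynomial (σ ⊕ Bool) K).totalDegree ≤ 2
    refine (totalDegree_sub _ _).trans (max_le ?_ ?_)
    · exact (totalDegree_mul _ _).trans (add_le_add (hX _) (hX _))
    · rw [totalDegree_one]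
      exact Nat.zero_le _

/-- `V(g) × 𝔾ₘ`, second form: the variable `t` in `B[t]` -/
noncomputable abbrev tv (B : Type) [CommRing B] : Fin 1 → MvPolynomial (Fin 1) B := X

/-- images of the variables -/
noncomputable def gmVal (g : κ → MvPolynomial σ K) : σ ⊕ Bool → Ring1 (tv (Co g)) :=
  Sum.elim
    (fun a => Ideal.Quotient.mk _ (C (C (Ideal.Quotient.mk (Ideal.span (Set.range g)) (X a)))))
    (fun m => if m then Ideal.Quotient.mk _ (C (X 0)) else Ideal.Quotient.mk _ (X 0))

theorem rel_tv (B : Type) [CommRing B] : (Ideal.Quotient.mk (Ideal.span {poly (tv B)}) (X 0)) *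
    (Ideal.Quotient.mk (Ideal.span {poly (tv B)}) (C (X 0))) = 1 := by
  have h := rel1 (tv B)
  rw [Fin.sum_univ_one] at h
  exact h

/-- one direction -/
noncomputable def gmF (g : κ → MvPolynomial σ K) : Co (gmV g) →ₐ[K] Ring1 (tv (Co g)) :=
  Ideal.Quotient.liftₐ _ (aeval (gmVal g))
    (by
      intro a ha
      have h : Ideal.span (Set.range (gmV g)) ≤
          RingHom.ker (aeval (gmVal g) : MvPolynomial (σ ⊕ Bool) K →ₐ[K] Ring1 (tv (Co g))) := by
        rw [Ideal.span_le]
        rintro _ ⟨k | z, rfl⟩
        · change aeval (gmVal g) (rename Sum.inl (g k)) = 0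
          rw [aeval_rename]
          let ψ : Co g →ₐ[K] Ring1 (tv (Co g)) :=
            (Ideal.Quotient.mkₐ K _).comp ((IsScalarTower.toAlgHom K (MvPolynomial (Fin 1) (Co g))
              (MvPolynomial (Fin 1) (MvPolynomial (Fin 1) (Co g)))).comp
              (IsScalarTower.toAlgHom K (Co g) (MvPolynomial (Fin 1) (Co g))))
          have h1 : (aeval (gmVal g ∘ Sum.inl) : MvPolynomial σ K →ₐ[K] Ring1 (tv (Co g))) =
              ψ.comp (aeval (fun a => Ideal.Quotient.mk (Ideal.span (Set.range g)) (X a))) := by
            apply MvPolynomial.algHom_ext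
            intro a
            rw [aeval_X]
            change _ = ψ (aeval _ (X a))
            rw [aeval_X]
            rfl
          rw [h1]
          change ψ (aeval _ (g k)) = 0
          rw [aeval_mk_X, mk_g, map_zero]
        · change aeval (gmVal g) (X (Sum.inr false) * X (Sum.inr true) - 1 :
            MvPolynomial (σ ⊕ Bool) K) = 0
          rw [map_sub, map_mul, aeval_X, aeval_X, map_one, sub_eq_zero]
          exact rel_tv (Co g)
      exact h ha)

/-- the coefficients -/
noncomputable def gmG0 (g : κ → MvPolynomial σ K) : Co g →ₐ[K] Co (gmV g) :=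
  Ideal.Quotient.liftₐ _ ((Ideal.Quotient.mkₐ K _).comp (rename Sum.inl))
    (by
      intro a ha
      have h : Ideal.span (Set.range g) ≤
          RingHom.ker ((Ideal.Quotient.mkₐ K (Ideal.span (Set.range (gmV g)))).comp
            (rename Sum.inl)) := by
        rw [Ideal.span_le]
        rintro _ ⟨k, rfl⟩
        exact mk_g (gmV g) (Sum.inl k)
      exact h ha)

theorem gmG0_X (g : κ → MvPolynomial σ K) (a : σ) :
    gmG0 g (Ideal.Quotient.mk _ (X a)) = Ideal.Quotient.mk _ (X (Sum.inl a)) := by
  change Ideal.Quotient.mk _ (rename Sum.inl (X a)) = _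
  rw [rename_X]

/-- on polynomials in `t` -/
noncomputable def gmG1 (g : κ → MvPolynomial σ K) : MvPolynomial (Fin 1) (Co g) →+* Co (gmV g) :=
  eval₂Hom (gmG0 g).toRingHom fun _ => Ideal.Quotient.mk _ (X (Sum.inr true))

/-- the other direction -/
noncomputable def gmG (g : κ → MvPolynomial σ K) : Ring1 (tv (Co g)) →+* Co (gmV g) :=
  Ideal.Quotient.lift _ (eval₂Hom (gmG1 g) fun _ => Ideal.Quotient.mk _ (X (Sum.inr false)))
    (by
      intro a ha
      have h : Ideal.span {poly (tv (Co g))} ≤
          RingHom.ker (eval₂Hom (gmG1 g) fun _ => Ideal.Quotient.mk _ (X (Sum.inr false))) := by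
        rw [Ideal.span_le, Set.singleton_subset_iff]
        change eval₂Hom _ _ (poly (tv (Co g))) = 0
        unfold poly
        rw [map_sub, map_one, map_sum, sub_eq_zero, Fin.sum_univ_one, map_mul, eval₂Hom_X',
          eval₂Hom_C]
        change _ * gmG1 g (X 0) = 1
        unfold gmG1
        rw [eval₂Hom_X', ← map_mul, ← sub_eq_zero, ← map_one (Ideal.Quotient.mk _), ← map_sub]
        exact mk_g (gmV g) (Sum.inr ())
      exact h ha)

theorem gmG_CC (g : κ → MvPolynomial σ K) (b : Co g) :
    gmG g (Ideal.Quotient.mk _ (C (C b))) = gmG0 g b := by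
  change eval₂Hom (gmG1 g) _ (C (C b)) = _
  rw [eval₂Hom_C]
  unfold gmG1
  rw [eval₂Hom_C]
  rfl

theorem gmG_CX (g : κ → MvPolynomial σ K) :
    gmG g (Ideal.Quotient.mk _ (C (X 0))) = Ideal.Quotient.mk _ (X (Sum.inr true)) := by
  change eval₂Hom (gmG1 g) _ (C (X 0)) = _
  rw [eval₂Hom_C]
  unfold gmG1
  rw [eval₂Hom_X']

theorem gmG_X (g : κ → MvPolynomial σ K) :
    gmG g (Ideal.Quotient.mk _ (X 0)) = Ideal.Quotient.mk _ (X (Sum.inr false)) := by
  change eval₂Hom (gmG1 g) _ (X 0) = _
  rw [eval₂Hom_X']

theorem gmF_X (g : κ → MvPolynomial σ K) (a : σ ⊕ Bool) :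
    gmF g (Ideal.Quotient.mk _ (X a)) = gmVal g a := by
  change aeval _ (X a : MvPolynomial (σ ⊕ Bool) K) = _
  rw [aeval_X]

/-- `V(gmV g) = V(g) × 𝔾ₘ` -/
noncomputable def gmIso (g : κ → MvPolynomial σ K) : Co (gmV g) ≃ₐ[K] Ring1 (tv (Co g)) :=
  AlgEquiv.ofRingEquiv (f := RingEquiv.ofRingHom (gmF g).toRingHom (gmG g)
    (by
      apply Ideal.Quotient.ringHom_ext
      apply MvPolynomial.ringHom_ext
      · intro p
        have h1 : ((((gmF g).toRingHom.comp (gmG g)).comp (Ideal.Quotient.mk _)).comp C) =
            ((Ideal.Quotient.mk (Ideal.span {poly (tv (Co g))})).comp C) := by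
          apply MvPolynomial.ringHom_ext
          · intro b
            change gmF g (gmG g (Ideal.Quotient.mk (Ideal.span {poly (tv (Co g))}) (C (C b)))) =
              Ideal.Quotient.mk (Ideal.span {poly (tv (Co g))}) (C (C b))
            rw [gmG_CC]
            obtain ⟨b, rfl⟩ := Ideal.Quotient.mk_surjective b
            have h2 : (((gmF g).comp (gmG0 g)).comp (Ideal.Quotient.mkₐ K _)) =
                ((Ideal.Quotient.mkₐ K (Ideal.span {poly (tv (Co g))})).comp
                  ((IsScalarTower.toAlgHom K (MvPolynomial (Fin 1) (Co g))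
                    (MvPolynomial (Fin 1) (MvPolynomial (Fin 1) (Co g)))).comp
                  (IsScalarTower.toAlgHom K (Co g) (MvPolynomial (Fin 1) (Co g))))).comp
                  (Ideal.Quotient.mkₐ K (Ideal.span (Set.range g))) := by
              apply MvPolynomial.algHom_ext
              intro a
              change gmF g (gmG0 g (Ideal.Quotient.mk _ (X a))) = _
              rw [gmG0_X, gmF_X]
              rfl
            exact DFunLike.congr_fun h2 b
          · intro i
            have hi : i = 0 := Subsingleton.elim _ _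
            subst hi
            change gmF g (gmG g (Ideal.Quotient.mk (Ideal.span {poly (tv (Co g))}) (C (X 0)))) =
              Ideal.Quotient.mk (Ideal.span {poly (tv (Co g))}) (C (X 0))
            rw [gmG_CX, gmF_X]
            rfl
        exact DFunLike.congr_fun h1 p
      · intro i
        have hi : i = 0 := Subsingleton.elim _ _
        subst hi
        change gmF g (gmG g (Ideal.Quotient.mk (Ideal.span {poly (tv (Co g))}) (X 0))) =
          Ideal.Quotient.mk (Ideal.span {poly (tv (Co g))}) (X 0)
        rw [gmG_X, gmF_X]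
        rfl)
    (by
      apply Ideal.Quotient.ringHom_ext
      apply MvPolynomial.ringHom_ext
      · intro x
        change gmG g (gmF g (Ideal.Quotient.mk _ (C x))) = Ideal.Quotient.mk _ (C x)
        have h1 : gmF g (Ideal.Quotient.mk _ (C x)) =
            Ideal.Quotient.mk (Ideal.span {poly (tv (Co g))}) (C (C (algebraMap K (Co g) x))) :=
          (gmF g).commutes x
        rw [h1, gmG_CC]
        exact (gmG0 g).commutes x
      · rintro (a | m)
        · change gmG g (gmF g (Ideal.Quotient.mk _ (X (Sum.inl a)))) = _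
          rw [gmF_X]
          change gmG g (Ideal.Quotient.mk (Ideal.span {poly (tv (Co g))}) (C (C _))) = _
          rw [gmG_CC, gmG0_X]
          rfl
        · change gmG g (gmF g (Ideal.Quotient.mk _ (X (Sum.inr m)))) = _
          rw [gmF_X]
          cases m
          · exact gmG_X g
          · exact gmG_CX g))
    (fun x => (gmF g).commutes x)

end

end Pool.Agent.R597.RD
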