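import Pool.Agent.R597.RD.Smooth

/-!
# Regulators with their formal properties
-/

set_option autoImplicit false

open CategoryTheory CategoryTheory.Limits AlgebraicGeometry MvPolynomial
open Pool.Agent.R904.CU

namespace Pool.Agent.R597.RD

/-- schemes over `K` -/
abbrev Sch (K : Type) [CommRing K] : Type 1 := Over (Spec (.of K) : Scheme.{0})

/-- `X` is separated, of finite type and smooth of relative dimension `d` over `K`. -/
def IsSm {K : Type} [CommRing K] (d : ℕ) (X : Sch K) : Prop := Sm K d X.left X.hom

/-- a cohomology theory with twists on the schemes over `K`: groups and pull-backs -/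
structure Coh (K : Type) [CommRing K] where
  /-- the group `H^i(X, j)` -/
  G : Sch K → ℤ → ℤ → Type
  /-- its group structure -/
  grp : ∀ X i j, AddCommGroup (G X i j)
  /-- the pull-back -/
  pull : ∀ {X Y : Sch K} (_ : Y ⟶ X) (i j : ℤ), G X i j →+ G Y i j

attribute [instance] Coh.grp

/-- pull-backs are functorial -/
structure Coh.IsFunctorial {K : Type} [CommRing K] (T : Coh K) : Prop where
  id : ∀ (X : Sch K) (i j : ℤ), T.pull (𝟙 X) i j = AddMonoidHom.id _
  comp : ∀ {X Y Z : Sch K} (f : Y ⟶ X) (g : Z ⟶ Y) (i j : ℤ),
    T.pull (g ≫ f) i j = (T.pull g i j).comp (T.pull f i j)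

/-- two cohomology theories `M` (motivic cohomology of `X ⊗ ℂ`), `H` (absolute Hodge cohomology of
`X ⊗ ℂ`), the second one with a topology, and a map `reg : M → H` (the regulator) -/
structure Regulator (K : Type) [CommRing K] where
  /-- motivic cohomology -/
  M : Coh K
  /-- absolute Hodge cohomology -/
  H : Coh K
  /-- the topology of `H` -/
  top : ∀ X i j, TopologicalSpace (H.G X i j)
  /-- the regulator -/
  reg : ∀ X i j, M.G X i j →+ H.G X i j

attribute [instance] Regulator.top

/-- the regulator is natural and pull-backs are functorial and continuous -/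
structure IsNatural {K : Type} [CommRing K] (R : Regulator K) : Prop where
  functM : R.M.IsFunctorial
  functH : R.H.IsFunctorial
  nat : ∀ {X Y : Sch K} (f : Y ⟶ X) (i j : ℤ),
    (R.reg Y i j).comp (R.M.pull f i j) = (R.H.pull f i j).comp (R.reg X i j)
  continuous_pull : ∀ {X Y : Sch K} (f : Y ⟶ X) (i j : ℤ), Continuous (R.H.pull f i j)

/-- homotopy invariance: for affine bundles `π : E → X` over smooth `X` the pull-backs are bijective,
in `H` homeomorphisms -/
def HasBundles {K : Type} [CommRing K] (R : Regulator K) : Prop :=
  ∀ (n d : ℕ) {X E : Sch K} (π : E ⟶ X), IsSm d X → IsAffineBundle n π.left → ∀ i j : ℤ,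
    Function.Bijective (R.M.pull π i j) ∧ IsHomeomorph (R.H.pull π i j)

/-- `z` is a closed immersion and `u` is an open immersion onto the complement of its image -/
structure IsPair {K : Type} [CommRing K] {X Z U : Sch K} (z : Z ⟶ X) (u : U ⟶ X) : Prop where
  closed : IsClosedImmersion z.left
  opn : IsOpenImmersion u.left
  compl : Set.range z.left = (Set.range u.left)ᶜ

/-- There are residues `resM : M' → M`, `resH : H' → H`, compatible with the regulators `r' : M' → H'`
and `r : M → H`, and a push-forward `push : H → HX`, such that `resH` is continuous and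
`H' → H → HX → HU` is exact. -/
def IsGysin {M' H' M H HX HU : Type} [AddCommGroup M'] [AddCommGroup H'] [AddCommGroup M]
    [AddCommGroup H] [AddCommGroup HX] [AddCommGroup HU] [TopologicalSpace H'] [TopologicalSpace H]
    (r' : M' →+ H') (r : M →+ H) (u : HX →+ HU) : Prop :=
  ∃ (resM : M' →+ M) (resH : H' →+ H) (push : H →+ HX), Continuous resH ∧
    r.comp resM = resH.comp r' ∧ Function.Exact resH push ∧ Function.Exact push u

/-- the Gysin sequences `H^{i+2c-1}(U, j+c) → H^i(Z, j) → H^{i+2c}(X, j+c) → H^{i+2c}(U, j+c)` of all
smooth closed subschemes `Z` of pure codimension `c` in smooth schemes `X`, with complement `U` -/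
def HasGysin {K : Type} [CommRing K] (R : Regulator K) : Prop :=
  ∀ (c d : ℕ) {X Z U : Sch K} (z : Z ⟶ X) (u : U ⟶ X), IsSm (d + c) X → IsSm d Z →
    IsPair z u → ∀ i j : ℤ, IsGysin (R.reg U (i + 2 * c - 1) (j + c)) (R.reg Z i j)
      (R.H.pull u (i + 2 * c) (j + c))

/-- The properties of the regulator which are used. -/
structure IsRegulator {K : Type} [CommRing K] (R : Regulator K) : Prop extends IsNatural R where
  bundle : HasBundles R
  gysin : HasGysin R

/-- Jouanolou's trick (Jouanolou, Thomason): over every smooth separated scheme of finite type over `K`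
there is an affine bundle whose total space is an affine scheme. -/
def Jouanolou (K : Type) [CommRing K] : Prop :=
  ∀ (d : ℕ) (X : Scheme.{0}) (f : X ⟶ Spec (.of K)), Sm K d X f →
    ∃ (n : ℕ) (E : Scheme.{0}) (π : E ⟶ X), IsAffine E ∧ IsAffineBundle n π

/-- the scheme `V(g)` over `K` -/
noncomputable def vScheme {K : Type} [CommRing K] {σ κ : Type} (g : κ → MvPolynomial σ K) : Sch K :=
  Over.mk (Spec.map (CommRingCat.ofHom
    (algebraMap K (MvPolynomial σ K ⧸ Ideal.span (Set.range g)))))

namespace Regulator

variable {K : Type} [CommRing K] (R : Regulator K)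

/-- the image of the regulator of `X` is dense in bidegree `(i, j)` -/
def IsDense (X : Sch K) (i j : ℤ) : Prop := DenseRange (R.reg X i j)

/-- Q1 in the bidegree `(i, j)`: the image of the regulator is dense for all smooth separated
`K`-schemes of finite type of pure dimension -/
def AllDense (i j : ℤ) : Prop := ∀ (d : ℕ) (X : Sch K), IsSm d X → R.IsDense X i j

/-- Q1 in the bidegree `(i, j)` for the smooth affine cubic hypersurfaces `∑ yₖ gₖ(x) = 1`, where the
`gₖ` are polynomials of degree at most two in `d + c` variables such that the closed subscheme `V(g)` of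
the affine space is smooth of pure codimension `c ≥ 1`. -/
def CubicDense (i j : ℤ) : Prop :=
  ∀ (σ κ : Type) [Fintype σ] [Fintype κ] (g : κ → MvPolynomial σ K) (c d : ℕ), 1 ≤ c →
    Fintype.card σ = d + c → (∀ k, (g k).totalDegree ≤ 2) → IsSm d (vScheme g) →
    R.IsDense (Over.mk (hyp (bigPoly g))) i j

/-- Q1: dense image for all smooth `X` and all bidegrees -/
def Q1 : Prop := ∀ i j : ℤ, R.AllDense i j

end Regulator

end Pool.Agent.R597.RD
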