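import Pool.Agent.R597.RD.Alg

/-!
# Density of the regulator: the reduction to cubic hypersurfaces in one sequence of bidegrees
-/

set_option autoImplicit false

open CategoryTheory CategoryTheory.Limits AlgebraicGeometry MvPolynomial
open Pool.Agent.R904.CU

namespace Pool.Agent.R597.RD

section

variable {K : Type} [Field K] {R : Regulator K} (hR : IsRegulator R)

theorem sm_self : IsSm 0 (SpecO K K) := by
  have h : (SpecO K K).hom = 𝟙 _ := Spec.map_id _
  unfold IsSm
  rw [h]
  exact ⟨⟨inferInstance, inferInstance, inferInstance⟩, inferInstance⟩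

include hR

/-- the step with `B[t_1..t_c]` -/
theorem dense_step {B : Type} [CommRing B] [Algebra K B] [Algebra.FiniteType K B] {e : ℕ}
    (hB : IsSm e (SpecO K B)) (c : ℕ) (hc : 1 ≤ c) {i j : ℤ}
    (hD : R.IsDense (SpecO K (Ring1 (X : Fin c → MvPolynomial (Fin c) B)))
      (i + 2 * c - 1) (j + c)) : R.IsDense (SpecO K B) i j := by
  have h1 := dense_of_ring1 hR hB (X : Fin c → MvPolynomial (Fin c) B) c e
    (by rw [Fintype.card_fin]; omega) (sm_iso (isoO (zeroIso K B (Fin c))) hB) (fun _ => 1)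
    (Pi.single ⟨0, hc⟩ 1) (by
      rw [Finset.sum_eq_single ⟨0, hc⟩]
      · rw [Pi.single_eq_same, eval_X, one_mul]
      · intro b _ hb
        rw [Pi.single_eq_of_ne hb, zero_mul]
      · intro h
        exact (h (Finset.mem_univ _)).elim) hD
  exact dense_of_iso hR (isoO (zeroIso K B (Fin c))).symm h1

/-- the last step, onto a cubic hypersurface -/
theorem dense_last {σ κ : Type} [Fintype σ] [Fintype κ] (g : κ → MvPolynomial σ K)
    (hg : ∀ k, (g k).totalDegree ≤ 2) (c d : ℕ) (hc : 1 ≤ c) (hcard : Fintype.card σ + 1 ≤ d + c)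
    (hZ : IsSm d (SpecO K (Co g))) {i j : ℤ}
    (hD : R.CubicDense (i + 2 * c - 1) (j + c)) : R.IsDense (SpecO K (Co g)) i j := by
  classical
  obtain ⟨e, he⟩ : ∃ e : ℕ, Fintype.card σ + (e + 1) = d + c := ⟨d + c - Fintype.card σ - 1, by omega⟩
  have hcard2 : Fintype.card (σ ⊕ Fin (e + 1)) = d + c := by
    rw [Fintype.card_sum, Fintype.card_fin, he]
  have hZ2 : IsSm d (SpecO K (Co (addV g (Fin (e + 1))))) := sm_iso (isoO (addIso g (Fin (e + 1)))) hZ
  have h1 := hD (σ ⊕ Fin (e + 1)) (κ ⊕ Fin (e + 1)) (addV g (Fin (e + 1))) c d hc hcard2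
    (totalDegree_addV g _ hg) hZ2
  let iso : SpecO K (Ring1 (addV g (Fin (e + 1)))) ≅
      Over.mk (hyp (bigPoly (addV g (Fin (e + 1))))) :=
    Over.isoMk (hypIso (addV g (Fin (e + 1)))) (hypIso_hom (addV g (Fin (e + 1))))
  have h2 := dense_of_iso hR iso.symm h1
  have h3 := dense_of_ring1 hR (B := K) (sm_self (K := K)) (addV g (Fin (e + 1))) c d
    (by rw [hcard2, add_zero]) hZ2 (Sum.elim 0 1) (Pi.single (Sum.inr 0) 1) (by
      rw [Finset.sum_eq_single (Sum.inr 0)]
      · rw [Pi.single_eq_same, one_mul]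
        change eval _ (X (Sum.inr 0)) = _
        rw [eval_X]
        rfl
      · intro b _ hb
        rw [Pi.single_eq_of_ne hb, zero_mul]
      · intro h
        exact (h (Finset.mem_univ _)).elim) h2
  exact dense_of_iso hR (isoO (addIso g (Fin (e + 1)))).symm h3

omit hR in
theorem sm_ring1_tv {B : Type} [CommRing B] [Algebra K B] [Algebra.FiniteType K B] {d : ℕ}
    (hB : IsSm d (SpecO K B)) :
    IsSm (d + 1) (SpecO K (Ring1 (tv B))) := by
  have hX := sm_poly B hB (Fin 1)
  have hU := sm_open _ hX (openU (tv B))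
  have hb := isAffineBundle_proj (tv B)
  have hcomm : proj (tv B) ≫ (openU (tv B)).ι ≫ (SpecO K (MvPolynomial (Fin 1) B)).hom =
      (SpecO K (Ring1 (tv B))).hom := by
    rw [← Category.assoc, proj_ι]
    change Spec.map _ ≫ Spec.map _ = Spec.map _
    rw [← Spec.map_comp, ← CommRingCat.ofHom_comp]
  have hft1 : Algebra.FiniteType K (MvPolynomial (Fin 1) B) :=
    Algebra.FiniteType.trans (S := B) inferInstance inferInstance
  have hft : Algebra.FiniteType K (Ring1 (tv B)) :=
    Algebra.FiniteType.trans (S := MvPolynomial (Fin 1) B) inferInstance inferInstance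
  have hs : SepFinType K (SpecO K (Ring1 (tv B))).left (SpecO K (Ring1 (tv B))).hom :=
    (cls_sepFinType K).affine (Ring1 (tv B)) hft
  unfold IsSm
  rw [← hcomm] at hs ⊢
  have h := sm_comp _ _ hU hs hb
  rw [Fintype.card_fin] at h
  have h2 : 1 - 1 + (1 + d) = d + 1 := by omega
  rw [h2] at h
  exact h

/-- **Dense image for `V(g)` from dense image for cubic hypersurfaces.** -/
theorem dense_of_cubic (s : ℕ) : ∀ {σ κ : Type} [Fintype σ] [Fintype κ] (g : κ → MvPolynomial σ K),
    (∀ k, (g k).totalDegree ≤ 2) → ∀ (c d : ℕ), 1 ≤ c → Fintype.card σ + s + 1 ≤ d + c →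
    IsSm d (SpecO K (Co g)) → ∀ {i j : ℤ},
    R.CubicDense (i + s + 2 * c - 1) (j + s + c) → R.IsDense (SpecO K (Co g)) i j := by
  induction s with
  | zero =>
    intro σ κ _ _ g hg c d hc hcard hZ i j hD
    refine dense_last hR g hg c d hc hcard hZ ?_
    simpa using hD
  | succ s ih =>
    intro σ κ _ _ g hg c d hc hcard hZ i j hD
    refine dense_step hR hZ 1 le_rfl ?_
    have hZ2 := sm_ring1_tv hZ
    have hZ3 := sm_iso (isoO (gmIso g)) hZ2
    have h1 := ih (gmV g) (totalDegree_gmV g hg) c (d + 1) hc (by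
      rw [Fintype.card_sum, Fintype.card_bool]
      omega) hZ3 (i := i + 1) (j := j + 1) (by
      have e1 : i + 1 + (s : ℤ) + 2 * c - 1 = i + ((s + 1 : ℕ) : ℤ) + 2 * c - 1 := by
        push_cast
        ring
      have e2 : j + 1 + (s : ℤ) + c = j + ((s + 1 : ℕ) : ℤ) + c := by
        push_cast
        ring
      rw [e1, e2]
      exact hD)
    have h2 := dense_of_iso hR (isoO (gmIso g)).symm h1
    have e3 : i + 2 * ((1 : ℕ) : ℤ) - 1 = i + 1 := by
      push_cast
      ring
    have e4 : j + ((1 : ℕ) : ℤ) = j + 1 := by push_cast; rfl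
    rw [e3, e4]
    exact h2

/-- Jouanolou's trick: affine schemes given by quadratic equations suffice -/
theorem all_of_quadratic (hJ : Jouanolou K) {i j : ℤ}
    (h : ∀ (σ κ : Type) [Fintype σ] [Fintype κ] (g : κ → MvPolynomial σ K) (d : ℕ),
      (∀ k, (g k).totalDegree ≤ 2) → IsSm d (SpecO K (Co g)) →
      R.IsDense (SpecO K (Co g)) i j) : R.AllDense i j := by
  intro d X' hX
  obtain ⟨X, ⟨⟨⟩⟩, f⟩ := X'
  change X ⟶ Spec (.of K) at f
  obtain ⟨n, E, π, hE, hπ⟩ := hJ d X f hX
  have hs1 := smooth_bundle π hπ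
  have hs2 := hX.2
  have hs : SmoothOfRelativeDimension (n + d) (π ≫ f) := inferInstance
  have hsm : Smooth (π ≫ f) := SmoothOfRelativeDimension.smooth (n + d) _
  have hEs : Sm K (n + d) E (π ≫ f) := ⟨⟨inferInstance, inferInstance, inferInstance⟩, hs⟩
  let π' : Over.mk (π ≫ f) ⟶ Over.mk f := Over.homMk π rfl
  refine dense_of_bundle hR π' hX hπ ?_
  obtain ⟨φ, hφ⟩ := Spec.map_surjective (E.isoSpec.inv ≫ π ≫ f)
  have hft2 : LocallyOfFiniteType (Spec.map φ) := by
    rw [hφ]
    infer_instance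
  have hφ2 : φ.hom.FiniteType := HasRingHomProperty.Spec_iff.mp hft2
  algebraize [φ.hom]
  let iso1 : Over.mk (π ≫ f) ≅ SpecO K Γ(E, ⊤) := Over.isoMk E.isoSpec (by
    have h3 : Spec.map (CommRingCat.ofHom (algebraMap K Γ(E, ⊤))) = E.isoSpec.inv ≫ π ≫ f := hφ
    change E.isoSpec.hom ≫ Spec.map (CommRingCat.ofHom (algebraMap K Γ(E, ⊤))) = _
    rw [h3, Iso.hom_inv_id_assoc]
    rfl)
  obtain ⟨σ, κ, _, _, g, hg, ⟨e⟩⟩ := exists_quadratic K Γ(E, ⊤)
  have h1 : IsSm (n + d) (SpecO K Γ(E, ⊤)) := sm_iso iso1 hEs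
  have h2 := h σ κ g (n + d) hg (sm_iso (isoO e) h1)
  exact dense_of_iso hR iso1.symm (dense_of_iso hR (isoO e).symm h2)

/-- cubic hypersurfaces suffice -/
theorem all_of_cubic (hJ : Jouanolou K) {i j : ℤ}
    (h : ∀ N : ℕ, ∃ s c : ℕ, N + s ≤ c ∧ R.CubicDense (i + s + 2 * c - 1) (j + s + c)) :
    R.AllDense i j := by
  refine all_of_quadratic hR hJ fun σ κ _ _ g d hg hZ => ?_
  obtain ⟨s, c, hc, hD⟩ := h (Fintype.card σ + 1)
  exact dense_of_cubic hR s g hg c d (by omega) (by omega) hZ hD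

/-- multiplication with punctured affine spaces -/
theorem all_step (hJ : Jouanolou K) (c : ℕ) (hc : 1 ≤ c) {i j : ℤ}
    (h : R.AllDense (i + 2 * c - 1) (j + c)) : R.AllDense i j := by
  refine all_of_quadratic hR hJ fun σ κ _ _ g d hg hZ => ?_
  refine dense_step hR hZ c hc ?_
  have hft0 : Algebra.FiniteType K (Co g) := inferInstance
  have hft1 : Algebra.FiniteType K (MvPolynomial (Fin c) (Co g)) :=
    Algebra.FiniteType.trans (S := Co g) inferInstance inferInstance
  let v : Fin c → MvPolynomial (Fin c) (Co g) := X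
  have hft : Algebra.FiniteType K (Ring1 v) :=
    Algebra.FiniteType.trans (S := MvPolynomial (Fin c) (Co g)) inferInstance inferInstance
  have hX := sm_poly (Co g) hZ (Fin c)
  have hU := sm_open _ hX (openU v)
  have hb := isAffineBundle_proj v
  have hcomm : proj v ≫ (openU v).ι ≫ (SpecO K (MvPolynomial (Fin c) (Co g))).hom =
      (SpecO K (Ring1 v)).hom := by
    rw [← Category.assoc, proj_ι]
    change Spec.map _ ≫ Spec.map _ = Spec.map _
    rw [← Spec.map_comp, ← CommRingCat.ofHom_comp]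
  have hs : SepFinType K (SpecO K (Ring1 v)).left (SpecO K (Ring1 v)).hom :=
    (cls_sepFinType K).affine (Ring1 v) hft
  rw [← hcomm] at hs
  have h3 := sm_comp _ _ hU hs hb
  rw [hcomm] at h3
  exact h _ (SpecO K (Ring1 v)) h3

/-- every shift `(a, b)` with `b ≤ a < 2b` -/
theorem all_shift (hJ : Jouanolou K) (s c : ℕ) (hc : 1 ≤ c) {i j : ℤ}
    (h : R.AllDense (i + s + 2 * c - 1) (j + s + c)) : R.AllDense i j := by
  induction s generalizing i j with
  | zero =>
    refine all_step hR hJ c hc ?_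
    simpa using h
  | succ s ih =>
    refine all_step hR hJ 1 le_rfl ?_
    have e3 : i + 2 * ((1 : ℕ) : ℤ) - 1 = i + 1 := by
      push_cast
      ring
    have e4 : j + ((1 : ℕ) : ℤ) = j + 1 := by push_cast; rfl
    rw [e3, e4]
    refine ih ?_
    have e1 : i + 1 + (s : ℤ) + 2 * c - 1 = i + ((s + 1 : ℕ) : ℤ) + 2 * c - 1 := by
      push_cast
      ring
    have e2 : j + 1 + (s : ℤ) + c = j + ((s + 1 : ℕ) : ℤ) + c := by
      push_cast
      ring
    rw [e1, e2]
    exact h

end

end Pool.Agent.R597.RD
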