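import Pool.Agent.R597.RD.Final

/-!
# Schemes over number fields
-/

set_option autoImplicit false

open CategoryTheory CategoryTheory.Limits AlgebraicGeometry MvPolynomial
open Pool.Agent.R904.CU

namespace Pool.Agent.R597.RD

/-- Q1 for all number fields: the image of the regulator is dense in all bidegrees for all `X` which are
smooth, separated, of finite type and of pure dimension over some number field `F`; here the groups are
those of `X` as a scheme over `ℚ` (`X ⊗_ℚ ℂ` is the sum of the conjugates of `X ⊗_F ℂ`) -/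
def Regulator.Q1NumberFields (R : Regulator ℚ) : Prop :=
  ∀ (F : Type) [Field F] [NumberField F] (d : ℕ) (X : Scheme.{0}) (f : X ⟶ Spec (.of F)),
    Sm F d X f → ∀ i j : ℤ,
      R.IsDense (Over.mk (f ≫ Spec.map (CommRingCat.ofHom (algebraMap ℚ F)))) i j

/-- Q1 in the bidegree `(i + a, j + b)`, where `b ≤ a < 2b`, implies Q1 in the bidegree `(i, j)`. -/
def Regulator.Shifts {K : Type} [CommRing K] (R : Regulator K) : Prop :=
  ∀ i j a b : ℤ, b ≤ a → a < 2 * b → R.AllDense (i + a) (j + b) → R.AllDense i j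

/-- Q1 holds in all bidegrees if and only if it holds for the bidegrees in `T`, whenever `i - j` and
`2j - i` are simultaneously arbitrarily large on `T`. -/
def Regulator.OneSequence {K : Type} [CommRing K] (R : Regulator K) : Prop :=
  ∀ T : Set (ℤ × ℤ), (∀ B : ℤ, ∃ p ∈ T, B ≤ p.1 - p.2 ∧ B ≤ 2 * p.2 - p.1) →
    (R.Q1 ↔ ∀ p ∈ T, R.AllDense p.1 p.2)

/-- Q1 holds if and only if it holds for the cubic hypersurfaces and the bidegrees in `T`, whenever
`2i - 3j` and `2j - i` are simultaneously arbitrarily large on `T`. -/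
def Regulator.CubicSequence {K : Type} [CommRing K] (R : Regulator K) : Prop :=
  ∀ T : Set (ℤ × ℤ), (∀ B : ℤ, ∃ p ∈ T, B ≤ 2 * p.1 - 3 * p.2 ∧ B ≤ 2 * p.2 - p.1) →
    (R.Q1 ↔ ∀ p ∈ T, R.CubicDense p.1 p.2)

/-- If Q1 holds for the cubic hypersurfaces in the bidegrees `(2q - m - 1, q)` for an unbounded set of
`q`, then Q1 holds for all `X` in all bidegrees `(2j - m, j)`. -/
def Regulator.Diagonals {K : Type} [CommRing K] (R : Regulator K) : Prop :=
  ∀ (m : ℤ) (D : Set ℤ), (∀ B : ℤ, ∃ q ∈ D, B ≤ q) →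
    (∀ q ∈ D, R.CubicDense (2 * q - m - 1) q) → ∀ j : ℤ, R.AllDense (2 * j - m) j

theorem sm_numberField (F : Type) [Field F] [NumberField F] {d : ℕ} {X : Scheme.{0}}
    (f : X ⟶ Spec (.of F)) (h : Sm F d X f) :
    Sm ℚ d X (f ≫ Spec.map (CommRingCat.ofHom (algebraMap ℚ F))) := by
  have hft : LocallyOfFiniteType (Spec.map (CommRingCat.ofHom (algebraMap ℚ F))) := by
    refine HasRingHomProperty.Spec_iff.mpr ?_
    rw [CommRingCat.hom_ofHom, RingHom.finiteType_algebraMap]
    infer_instance
  obtain ⟨⟨h1, h2, h3⟩, h4⟩ := h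
  refine ⟨⟨inferInstance, inferInstance, inferInstance⟩, ?_⟩
  have he : Algebra.FormallyEtale ℚ F := Algebra.FormallyEtale.of_isSeparable ℚ F
  have hfp : Algebra.FinitePresentation ℚ F := Algebra.FinitePresentation.of_finiteType.1 inferInstance
  have het : Algebra.Etale ℚ F := { }
  have hs : SmoothOfRelativeDimension 0 (Spec.map (CommRingCat.ofHom (algebraMap ℚ F))) := by
    rw [HasRingHomProperty.Spec_iff (P := @SmoothOfRelativeDimension 0)]
    apply RingHom.locally_of
    · exact RingHom.isStandardSmoothOfRelativeDimension_respectsIso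
    · show (algebraMap ℚ F).IsStandardSmoothOfRelativeDimension 0
      rw [RingHom.isStandardSmoothOfRelativeDimension_algebraMap]
      exact Algebra.Etale.iff_isStandardSmoothOfRelativeDimension_zero.1 het
  have h5 : SmoothOfRelativeDimension (d + 0)
    (f ≫ Spec.map (CommRingCat.ofHom (algebraMap ℚ F))) := inferInstance
  exact h5

theorem q1NumberFields_iff (R : Regulator ℚ) : R.Q1NumberFields ↔ R.Q1 := by
  constructor
  · intro h i j d X' hf
    obtain ⟨X, ⟨⟨⟩⟩, f⟩ := X'
    change X ⟶ Spec (.of ℚ) at f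
    have h1 := h ℚ d X f hf i j
    have key : ∀ φ : ℚ →+* ℚ, f ≫ Spec.map (CommRingCat.ofHom φ) = f := by
      intro φ
      have h3 : φ = RingHom.id ℚ := Subsingleton.elim _ _
      have h2 : Spec.map (CommRingCat.ofHom φ) = 𝟙 (Spec (.of ℚ)) := by
        rw [h3]
        exact Spec.map_id _
      rw [h2, Category.comp_id]
    rw [key] at h1
    exact h1
  · intro h F _ _ d X f hf i j
    exact h i j d (Over.mk _) (sm_numberField F f hf)

end Pool.Agent.R597.RD
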