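import Pool.Agent.R597.RD.ShiftL

/-!
# Closed subschemes of trivial bundles avoiding a section, concretely
-/

set_option autoImplicit false

open CategoryTheory CategoryTheory.Limits AlgebraicGeometry MvPolynomial
open Pool.Agent.R904.CU

namespace Pool.Agent.R597.RD

section

variable {K : Type} [CommRing K] [IsNoetherianRing K]

theorem sm_iso {d : ℕ} {X Y : Sch K} (e : X ≅ Y)
    (h : IsSm d X) : IsSm d Y := by
  have hw : e.inv.left ≫ X.hom = Y.hom := Over.w e.inv
  have hi : IsIso e.inv.left := inferInstanceAs (IsIso ((Over.forget _).map e.inv))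
  constructor
  · rw [← hw]
    exact (cls_sepFinType K).opn _ _ _ _ inferInstance h.1
  · rw [← hw]
    have h2 := h.2
    exact IsZariskiLocalAtSource.comp (P := @SmoothOfRelativeDimension d) h2 _

theorem sm_open {d : ℕ} {X : Scheme.{0}} (f : X ⟶ Spec (.of K)) (h : Sm K d X f) (U : X.Opens) :
    Sm K d U (U.ι ≫ f) :=
  ⟨(cls_sepFinType K).opn _ _ _ _ inferInstance h.1,
    IsZariskiLocalAtSource.comp (P := @SmoothOfRelativeDimension d) h.2 _⟩

theorem sm_poly {e : ℕ} (B : Type) [CommRing B] [Algebra K B] [Algebra.FiniteType K B]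
    (hB : IsSm e (SpecO K B)) (τ : Type) [Fintype τ] :
    IsSm (Fintype.card τ + e) (SpecO K (MvPolynomial τ B)) := by
  have h1 : (SpecO K (MvPolynomial τ B)).hom =
      Spec.map (CommRingCat.ofHom (C : B →+* MvPolynomial τ B)) ≫ (SpecO K B).hom := by
    change Spec.map _ = Spec.map _ ≫ Spec.map _
    rw [← Spec.map_comp, ← CommRingCat.ofHom_comp]
    rfl
  have hft : Algebra.FiniteType K (MvPolynomial τ B) :=
    Algebra.FiniteType.trans (S := B) inferInstance inferInstance
  have h2 : SepFinType K (SpecO K (MvPolynomial τ B)).left (SpecO K (MvPolynomial τ B)).hom :=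
    (cls_sepFinType K).affine (MvPolynomial τ B) hft
  unfold IsSm
  rw [h1] at h2 ⊢
  exact sm_comp _ _ hB h2 (isAffineBundle_C B τ)

variable {R : Regulator K} (hR : IsRegulator R)

include hR

/-- **The residue onto a closed subscheme `V(h)` of `Spec B[τ]` which avoids a section.** -/
theorem dense_of_ring1 {B : Type} [CommRing B] [Algebra K B] [Algebra.FiniteType K B] {e : ℕ}
    (hB : IsSm e (SpecO K B)) {τ κ : Type} [Fintype τ] [Fintype κ]
    (h : κ → MvPolynomial τ B) (c d : ℕ) (hcd : Fintype.card τ + e = d + c)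
    (hZ : IsSm d (SpecO K (MvPolynomial τ B ⧸ Ideal.span (Set.range h))))
    (b : τ → B) (w : κ → B) (hw : ∑ k, w k * eval b (h k) = 1) {i j : ℤ}
    (hD : R.IsDense (SpecO K (Ring1 h)) (i + 2 * c - 1) (j + c)) :
    R.IsDense (SpecO K (MvPolynomial τ B ⧸ Ideal.span (Set.range h))) i j := by
  let X : Sch K := SpecO K (MvPolynomial τ B)
  have hX : IsSm (d + c) X := by
    rw [← hcd]
    exact sm_poly B hB τ
  let z : SpecO K (MvPolynomial τ B ⧸ Ideal.span (Set.range h)) ⟶ X :=
    specO (Ideal.Quotient.mkₐ K (Ideal.span (Set.range h)))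
  have hz : z.left = closedZ h := rfl
  let U : Sch K := Over.mk ((openU h).ι ≫ X.hom)
  let u : U ⟶ X := Over.homMk (openU h).ι rfl
  have hu : u.left = (openU h).ι := rfl
  let p : X ⟶ SpecO K B := specO (IsScalarTower.toAlgHom K B (MvPolynomial τ B))
  have hp : p.left = Spec.map (CommRingCat.ofHom (C : B →+* MvPolynomial τ B)) := rfl
  let ev : MvPolynomial τ B →ₐ[K] B := (aeval b : MvPolynomial τ B →ₐ[B] B).restrictScalars K
  let s0 : SpecO K B ⟶ X := specO ev
  have hs0 : s0 ≫ p = 𝟙 _ := by
    apply Over.OverMorphism.ext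
    change Spec.map _ ≫ Spec.map _ = 𝟙 _
    rw [← Spec.map_comp, ← CommRingCat.ofHom_comp]
    have h1 : (ev.toRingHom.comp (IsScalarTower.toAlgHom K B (MvPolynomial τ B)).toRingHom) =
        RingHom.id B := by
      ext x
      change aeval b (C x) = x
      rw [aeval_C]
      rfl
    rw [h1]
    exact Spec.map_id _
  have hrange : Set.range s0.left ⊆ Set.range (openU h).ι := by
    rintro _ ⟨q, rfl⟩
    rw [Scheme.Opens.range_ι]
    by_contra hcon
    have h1 : ∀ k, eval b (h k) ∈ q.asIdeal := by
      intro k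
      by_contra h2
      apply hcon
      exact ⟨k, h2⟩
    apply q.2.ne_top
    rw [Ideal.eq_top_iff_one, ← hw]
    exact Ideal.sum_mem _ fun k _ => Ideal.mul_mem_left _ _ (h1 k)
  let s1 : (SpecO K B).left ⟶ (openU h : Scheme.{0}) := IsOpenImmersion.lift (openU h).ι s0.left hrange
  have hs1 : s1 ≫ (openU h).ι = s0.left := IsOpenImmersion.lift_fac _ _ _
  let s : SpecO K B ⟶ U := Over.homMk s1 (by
    change s1 ≫ (openU h).ι ≫ X.hom = _
    rw [← Category.assoc, hs1]
    exact Over.w s0)
  have hsu : s ≫ u = s0 := by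
    apply Over.OverMorphism.ext
    exact hs1
  have hU : IsSm (d + c) U := sm_open _ hX _
  -- the bundle over `U`
  let W : Sch K := SpecO K (Ring1 h)
  let π : W ⟶ U := Over.homMk (proj h) (by
    change proj h ≫ (openU h).ι ≫ X.hom = _
    rw [← Category.assoc, proj_ι]
    change Spec.map _ ≫ Spec.map _ = Spec.map _
    rw [← Spec.map_comp, ← CommRingCat.ofHom_comp])
  have hUd : R.IsDense U (i + 2 * c - 1) (j + c) :=
    dense_of_bundle hR π hU (isAffineBundle_proj h) hD
  refine dense_of_section hR z u hX hZ (by rw [hz]; infer_instance) (by rw [hu]; infer_instance)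
    (by rw [hz, hu]; exact range_closedZ h) hB p (by rw [hp]; exact isAffineBundle_C B τ) s ?_ hUd
  rw [← Category.assoc, hsu, hs0]

end

end Pool.Agent.R597.RD
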