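import Pool.Agent.R597.RD.Defs

/-!
# The residue onto a closed subscheme of a trivial bundle which avoids a section
-/

set_option autoImplicit false

open CategoryTheory CategoryTheory.Limits AlgebraicGeometry MvPolynomial
open Pool.Agent.R904.CU

namespace Pool.Agent.R597.RD

section

variable {K : Type} [CommRing K] {R : Regulator K} (hR : IsRegulator R)

include hR

theorem IsRegulator.pullH_id (X : Sch K) (i j : ℤ) (x : R.H.G X i j) :
    R.H.pull (𝟙 X) i j x = x := by
  rw [hR.functH.id]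
  rfl

theorem IsRegulator.pullH_comp {X Y Z : Sch K} (f : Y ⟶ X) (g : Z ⟶ Y) (i j : ℤ)
    (x : R.H.G X i j) : R.H.pull (g ≫ f) i j x = R.H.pull g i j (R.H.pull f i j x) := by
  rw [hR.functH.comp]
  rfl

theorem IsRegulator.reg_pull {X Y : Sch K} (f : Y ⟶ X) (i j : ℤ) (x : R.M.G X i j) :
    R.reg Y i j (R.M.pull f i j x) = R.H.pull f i j (R.reg X i j x) :=
  DFunLike.congr_fun (hR.nat f i j) x

theorem dense_of_iso {X Y : Sch K} (e : X ≅ Y) {i j : ℤ}
    (h : R.IsDense X i j) : R.IsDense Y i j := by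
  have hs : Function.Surjective (R.H.pull e.inv i j) := by
    intro y
    refine ⟨R.H.pull e.hom i j y, ?_⟩
    rw [← hR.pullH_comp, e.inv_hom_id, hR.pullH_id]
  have h1 : DenseRange (R.H.pull e.inv i j ∘ R.reg X i j) :=
    hs.denseRange.comp h (hR.continuous_pull _ _ _)
  refine h1.mono ?_
  rintro _ ⟨x, rfl⟩
  exact ⟨R.M.pull e.inv i j x, hR.reg_pull _ _ _ _⟩

theorem dense_of_bundle {n d : ℕ} {X E : Sch K} (π : E ⟶ X)
    (hX : IsSm d X) (hπ : IsAffineBundle n π.left) {i j : ℤ} (h : R.IsDense E i j) :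
    R.IsDense X i j := by
  obtain ⟨hM, hH⟩ := hR.bundle n d π hX hπ i j
  have h1 : Dense (R.H.pull π i j ⁻¹' Set.range (R.reg E i j)) :=
    Dense.preimage h hH.isOpenMap
  refine Dense.mono ?_ h1
  rintro y ⟨x, hx⟩
  obtain ⟨m, rfl⟩ := hM.surjective x
  refine ⟨m, ?_⟩
  apply hH.injective
  rw [← hx, hR.reg_pull]

/-- **The residue is onto and density descends.** -/
theorem dense_of_section {c d e n : ℕ} {X Z U S : Sch K} (z : Z ⟶ X)
    (u : U ⟶ X) (hX : IsSm (d + c) X) (hZ : IsSm d Z)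
    (hz : IsClosedImmersion z.left) (hu : IsOpenImmersion u.left)
    (hr : Set.range z.left = (Set.range u.left)ᶜ) (hS : IsSm e S) (p : X ⟶ S)
    (hp : IsAffineBundle n p.left) (s : S ⟶ U) (hs : s ≫ u ≫ p = 𝟙 S) {i j : ℤ}
    (h : R.IsDense U (i + 2 * c - 1) (j + c)) : R.IsDense Z i j := by
  obtain ⟨resM, resH, push, hc, hreg, hex1, hex2⟩ := hR.gysin c d z u hX hZ ⟨hz, hu, hr⟩ i j
  have hpush : ∀ y, push y = 0 := by
    intro y
    obtain ⟨w, hw⟩ := (hR.bundle n e p hS hp (i + 2 * c) (j + c)).2.surjective (push y)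
    have h1 : R.H.pull u (i + 2 * c) (j + c) (push y) = 0 := (hex2 _).2 ⟨y, rfl⟩
    have h2 : R.H.pull s (i + 2 * c) (j + c) (R.H.pull u (i + 2 * c) (j + c)
        (R.H.pull p (i + 2 * c) (j + c) w)) = w := by
      rw [← hR.pullH_comp, ← hR.pullH_comp, Category.assoc, hs, hR.pullH_id]
    rw [hw, h1, map_zero] at h2
    rw [← hw, ← h2, map_zero]
  have hsurj : Function.Surjective resH := fun y => (hex1 y).1 (hpush y)
  have h1 : DenseRange (resH ∘ R.reg U _ _) := hsurj.denseRange.comp h hc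
  refine h1.mono ?_
  rintro _ ⟨x, rfl⟩
  exact ⟨resM x, DFunLike.congr_fun hreg x⟩

end

section

variable {K : Type} [CommRing K]

/-- the scheme `Spec B` over `K` -/
noncomputable abbrev SpecO (K B : Type) [CommRing K] [CommRing B] [Algebra K B] :
    Sch K :=
  Over.mk (Spec.map (CommRingCat.ofHom (algebraMap K B)))

/-- the map of a homomorphism of algebras -/
noncomputable def specO {B C : Type} [CommRing B] [CommRing C] [Algebra K B] [Algebra K C]
    (φ : B →ₐ[K] C) : SpecO K C ⟶ SpecO K B :=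
  Over.homMk (Spec.map (CommRingCat.ofHom φ.toRingHom)) (by
    change Spec.map _ ≫ Spec.map _ = Spec.map _
    rw [← Spec.map_comp, ← CommRingCat.ofHom_comp]
    congr 2
    exact φ.comp_algebraMap)

/-- the isomorphism of an isomorphism of algebras -/
noncomputable def isoO {B C : Type} [CommRing B] [CommRing C] [Algebra K B] [Algebra K C]
    (φ : B ≃ₐ[K] C) : SpecO K C ≅ SpecO K B :=
  Over.isoMk (Scheme.Spec.mapIso φ.toRingEquiv.toCommRingCatIso.op) (by
    change Spec.map _ ≫ Spec.map _ = Spec.map _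
    rw [← Spec.map_comp]
    congr 1
    apply CommRingCat.hom_ext
    exact φ.toAlgHom.comp_algebraMap)

theorem isAffineBundle_C (B τ : Type) [CommRing B] [Fintype τ] :
    IsAffineBundle (Fintype.card τ) (Spec.map (CommRingCat.ofHom (C : B →+* MvPolynomial τ B))) := by
  intro x
  refine ⟨.of B, 𝟙 _, τ, inferInstance, 𝟙 _, rfl, inferInstance, ⟨x, rfl⟩, ?_⟩
  exact IsPullback.of_horiz_isIso ⟨by rw [Category.comp_id, Category.id_comp]⟩

theorem sm_comp {n d : ℕ} {X E : Scheme.{0}} (f : X ⟶ Spec (.of K)) (π : E ⟶ X) (hX : Sm K d X f)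
    (hE : SepFinType K E (π ≫ f)) (hπ : IsAffineBundle n π) : Sm K (n + d) E (π ≫ f) := by
  have h1 := smooth_bundle π hπ
  have h2 := hX.2
  exact ⟨hE, inferInstance⟩

end

end Pool.Agent.R597.RD
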