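import Pool.Agent.R904.CU.Shift

/-!
# Affine bundles are smooth
-/

set_option autoImplicit false

open CategoryTheory CategoryTheory.Limits AlgebraicGeometry MvPolynomial
open Pool.Agent.R904.CU

namespace Pool.Agent.R597.RD

section

variable (B : Type) [CommRing B] (τ : Type) [Finite τ]

/-- The presentation of the polynomial ring without relations. -/
noncomputable def pres : Algebra.SubmersivePresentation B (MvPolynomial τ B) τ PEmpty.{1} where
  val := MvPolynomial.X
  σ' := fun p => p
  aeval_val_σ' := fun s => by simp
  algebra := Algebra.id _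
  algebraMap_eq := by
    ext
    · simp
    · simp
  relation := PEmpty.elim
  span_range_relation_eq_ker := by
    rw [Set.range_eq_empty, Ideal.span_empty, Algebra.Generators.ker_eq_ker_aeval_val]
    symm
    rw [← RingHom.injective_iff_ker_eq_bot]
    intro a b hab
    simpa using hab
  map := PEmpty.elim
  map_inj := fun a => a.elim
  jacobian_isUnit := by
    rw [Algebra.PreSubmersivePresentation.jacobian_eq_jacobiMatrix_det]
    simp

omit [Finite τ] in
theorem pres_dim : (pres B τ).dimension = Nat.card τ := by
  simp [Algebra.Presentation.dimension]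

theorem stdSmooth_poly :
    Algebra.IsStandardSmoothOfRelativeDimension (Nat.card τ) B (MvPolynomial τ B) :=
  (pres B τ).isStandardSmoothOfRelativeDimension (pres_dim B τ)

theorem smooth_poly : SmoothOfRelativeDimension (Nat.card τ)
    (Spec.map (CommRingCat.ofHom (C : B →+* MvPolynomial τ B))) := by
  rw [HasRingHomProperty.Spec_iff (P := @SmoothOfRelativeDimension (Nat.card τ))]
  apply RingHom.locally_of
  · exact RingHom.isStandardSmoothOfRelativeDimension_respectsIso
  · show (algebraMap B (MvPolynomial τ B)).IsStandardSmoothOfRelativeDimension (Nat.card τ)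
    rw [RingHom.isStandardSmoothOfRelativeDimension_algebraMap]
    exact stdSmooth_poly B τ

end

instance (n : ℕ) : IsZariskiLocalAtSource.{0} (@SmoothOfRelativeDimension.{0} n) :=
  HasRingHomProperty.instIsZariskiLocalAtSource

/-- local on the source, pointwise form -/
theorem smoothOfRelativeDimension_of_forall {n : ℕ} {E X : Scheme.{0}} (π : E ⟶ X)
    (h : ∀ e : E, ∃ (V : Scheme.{0}) (v : V ⟶ E), IsOpenImmersion v ∧ e ∈ Set.range v ∧
      SmoothOfRelativeDimension n (v ≫ π)) : SmoothOfRelativeDimension n π := by
  choose V v hv he hs using h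
  refine IsZariskiLocalAtSource.of_iSup_eq_top (P := @SmoothOfRelativeDimension n)
    (fun e => (v e).opensRange) ?_ ?_
  · rw [eq_top_iff]
    rintro e -
    rw [TopologicalSpace.Opens.mem_iSup]
    exact ⟨e, he e⟩
  · intro e
    have h1 := hs e
    have h2 : (v e).opensRange.ι ≫ π = (v e).isoOpensRange.inv ≫ v e ≫ π := by
      rw [← Category.assoc, Scheme.Hom.isoOpensRange_inv_comp]
    rw [h2]
    exact IsZariskiLocalAtSource.comp (P := @SmoothOfRelativeDimension n) h1 _

theorem smooth_bundle {n : ℕ} {E X : Scheme.{0}} (π : E ⟶ X) (h : IsAffineBundle n π) :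
    SmoothOfRelativeDimension n π := by
  refine smoothOfRelativeDimension_of_forall π fun e => ?_
  obtain ⟨B, u, τ, _, v, hn, hu, ⟨y, hy⟩, hp⟩ := h (π e)
  obtain ⟨z, hz1, -⟩ := Scheme.exists_preimage_of_isPullback hp e y hy.symm
  refine ⟨_, v, ?_, ⟨z, hz1⟩, ?_⟩
  · exact MorphismProperty.of_isPullback hp.flip hu
  · rw [hp.w]
    have h1 := smooth_poly B τ
    rw [Nat.card_eq_fintype_card, hn] at h1
    have h2 : SmoothOfRelativeDimension (n + 0)
      (Spec.map (CommRingCat.ofHom (C : B →+* MvPolynomial τ B)) ≫ u) := inferInstance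
    exact h2

/-- `f : X → Spec K` is separated, of finite type and smooth of relative dimension `d`. -/
def Sm (K : Type) [CommRing K] (d : ℕ) : SchProp K := fun X f =>
  SepFinType K X f ∧ SmoothOfRelativeDimension d f

end Pool.Agent.R597.RD
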